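import Pool.Agent.Lib.MP_12a5fd_co.Cuts

namespace Pool.Agent.Results.MP_12a5fd_co.Caterpillars

open SimpleGraph

/-- The trees `T_1, …, T_n` (`T i` has `i + 1` vertices) pack into `K_{⌈n/2⌉, n-1}`. -/
def Packs (n : ℕ) (T : ∀ i : Fin n, SimpleGraph (Fin (i.val + 1))) : Prop :=
  ∃ f : ∀ i : Fin n, Fin (i.val + 1) → Fin ((n + 1) / 2) ⊕ Fin (n - 1),
    (∀ i, Function.Injective (f i)) ∧
    (∀ i a b, (T i).Adj a b →
      (completeBipartiteGraph (Fin ((n + 1) / 2)) (Fin (n - 1))).Adj (f i a) (f i b)) ∧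
    (∀ i j, i ≠ j → ∀ a b c d, (T i).Adj a b → (T j).Adj c d →
      s(f i a, f i b) ≠ s(f j c, f j d))

/-- Some path starting at `u` contains or is adjacent to every vertex (so a tree `G` with such
a vertex is a caterpillar, and `u` is an end of a spine). -/
def SpineEnd {V : Type} (G : SimpleGraph V) (u : V) : Prop :=
  ∃ (v : V) (p : G.Walk u v), p.IsPath ∧ ∀ w, w ∈ p.support ∨ ∃ z ∈ p.support, G.Adj w z

/-- Number of vertices within distance `d` of `u`. -/
noncomputable def ball {V : Type} (G : SimpleGraph V) (u : V) (d : ℕ) : ℕ :=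
  {w | G.dist u w ≤ d}.ncard

/-- The numbers `s` such that, in a breadth-first numbering `0, 1, 2, …` of the vertices from
`u`, vertex number `s + 1` is at an even distance from `u`. -/
def Cuts {V : Type} (G : SimpleGraph V) (u : V) : Set ℕ :=
  {s | ∃ k, ball G u (2 * k + 1) ≤ s + 1 ∧ s + 1 < ball G u (2 * k + 2)}

/-- Two-class criterion.  `R true` and `R false` are sets of edge numbers, `t b` sends `R b`
injectively to the `⌈n/2⌉` vertices of the small side, and two numbers sent to the same vertex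
have sum at most `n - 1`.  If every tree with at least one edge is a caterpillar whose edge
number and cut points (seen from some spine end) lie in one class, the trees pack. -/
theorem result (n : ℕ) (T : ∀ i : Fin n, SimpleGraph (Fin (i.val + 1)))
    (hT : ∀ i, (T i).IsTree) (R : Bool → Set ℕ) (t : Bool → ℕ → ℕ)
    (ht1 : ∀ b, Set.InjOn (t b) (R b)) (ht2 : ∀ b, ∀ l ∈ R b, t b l < (n + 1) / 2)
    (ht3 : ∀ l ∈ R true, ∀ l' ∈ R false, t true l = t false l' → l + l' ≤ n - 1)
    (hC : ∀ i : Fin n, 1 ≤ i.val → ∃ u b, SpineEnd (T i) u ∧ i.val ∈ R b ∧ Cuts (T i) u ⊆ R b) :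
    Packs n T := by
  rcases Nat.eq_zero_or_pos n with rfl | hn
  · exact ⟨fun i => i.elim0, fun i => i.elim0, fun i => i.elim0, fun i => i.elim0⟩
  refine Pool.Agent.Lib.MP_12a5fd_co.pack_two hn T hT _ (by omega) R t ht1 ht2 ht3 ?_
  intro i hi
  obtain ⟨u, b, ⟨v, p, hp, hd⟩, h1, h2⟩ := hC i hi
  exact ⟨b, h1, (Pool.Agent.Lib.MP_12a5fd_co.lab_of_caterpillar hi (T i) (hT i) p hp hd).mono h2⟩

end Pool.Agent.Results.MP_12a5fd_co.Caterpillars
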