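import Mathlib
import Pool.Agent.Lib.MP_12a5fd_co.YU.Pack3

set_option autoImplicit false

namespace Pool.Agent.Results.MP_12a5fd_co.NineTenths

open Pool.Agent.Lib.MP_12a5fd_co

/-- For large `n`, all trees `T 0, …, T (s-1)` of orders `1, …, s` with `s ≤ 0.9033 n` pack into
every complete bipartite graph with parts of sizes at least `(n - 1) / 2` and `n - 1`. -/
theorem result :
    ∃ n₀ : ℕ, ∀ n s a b : ℕ, n₀ ≤ n → 10000 * s ≤ 9033 * n → n ≤ 2 * a + 1 → n ≤ b + 1 →
      ∀ (T : ∀ i : Fin s, SimpleGraph (Fin (i.val + 1))), (∀ i, (T i).IsTree) →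
      ∃ f : ∀ i : Fin s, Fin (i.val + 1) → Fin a ⊕ Fin b,
        (∀ i, Function.Injective (f i)) ∧
        (∀ i x y, (T i).Adj x y →
          (completeBipartiteGraph (Fin a) (Fin b)).Adj (f i x) (f i y)) ∧
        (∀ i j, i ≠ j → ∀ x y z t, (T i).Adj x y → (T j).Adj z t →
          s(f i x, f i y) ≠ s(f j z, f j t)) := by
  obtain ⟨k0, h⟩ := YU.pack3
  refine ⟨2 * k0 + 100000, fun n s a b hn hs ha hb T hT => ?_⟩
  obtain ⟨f, f1, f2, f3⟩ := h (100000 * (n - 1) / 100001) a b (by omega) (by omega) (by omega)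
    (Fin s) (fun i => i.val + 1) (fun i j e => Fin.ext (by simpa using e))
    (fun i => by have := i.2; omega) T hT
  refine ⟨f, f1, fun i x y hxy => ?_, fun i j hij x y z t h1 h2 e => hij (f3 i j x y z t h1 h2 e)⟩
  have e := f2 i x y hxy
  cases h1 : f i x <;> cases h2 : f i y <;> simp [h1, h2] at e ⊢

end Pool.Agent.Results.MP_12a5fd_co.NineTenths
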