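import Mathlib
import Pool.Agent.Lib.MP_12a5fd_co.BT.Main

set_option autoImplicit false

namespace Pool.Agent.Results.MP_12a5fd_co.Paired

open Pool.Agent.Lib.MP_12a5fd_co

/-- Asymptotic packing of trees `T 0, …, T (n-1)` of orders `1, …, n` into a complete bipartite
graph with parts of sizes at least `(1 + ε) n / 2` and `(1 + ε) n`. `A i` is a smaller colour
class of `T i`, `α i` bounds (up to `γ n` edges) the share of the edges at the vertices of
`A i` of degree above `γ n`, and `π` pairs the trees (at most one is left alone) so that the shares of a pair add up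
to at most one. -/
theorem result :
    ∀ ε : ℝ, 0 < ε → ∃ γ : ℝ, 0 < γ ∧ ∃ n₀ : ℕ, ∀ n a b : ℕ, n₀ ≤ n →
      (1 + ε) * (n : ℝ) / 2 ≤ (a : ℝ) → (1 + ε) * (n : ℝ) ≤ (b : ℝ) →
      ∀ (T : ∀ i : Fin n, SimpleGraph (Fin (i.val + 1))), (∀ i, (T i).IsTree) →
      ∀ (A : ∀ i : Fin n, Finset (Fin (i.val + 1))),
        (∀ i x y, (T i).Adj x y → (x ∈ A i ↔ y ∉ A i)) →
        (∀ i, 2 * (A i).card ≤ i.val + 1) →
      ∀ (α : Fin n → ℝ), (∀ i, 0 ≤ α i) →
        (∀ i, ((∑ x ∈ (A i).filter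
            (fun x => γ * (n : ℝ) < (((T i).neighborSet x).ncard : ℝ)),
          ((T i).neighborSet x).ncard : ℕ) : ℝ) ≤ α i * ((i.val : ℝ) + 1) + γ * (n : ℝ)) →
      ∀ (π : Fin n → Fin n), (∀ i, π (π i) = i) → (∀ i j, π i = i → π j = j → i = j) →
        (∀ i, π i ≠ i → α i + α (π i) ≤ 1) →
      ∃ f : ∀ i : Fin n, Fin (i.val + 1) → Fin a ⊕ Fin b,
        (∀ i, Function.Injective (f i)) ∧
        (∀ i x y, (T i).Adj x y →
          (completeBipartiteGraph (Fin a) (Fin b)).Adj (f i x) (f i y)) ∧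
        (∀ i j, i ≠ j → ∀ x y z t, (T i).Adj x y → (T j).Adj z t →
          s(f i x, f i y) ≠ s(f j z, f j t)) := by
  intro ε hε
  obtain ⟨γ, hγ, k0, h⟩ := BT.pack2 ε hε
  refine ⟨γ, hγ, k0, fun n a b hn ha hb T hT A hA hA2 α hα0 hα π hπ hfix hp => ?_⟩
  obtain ⟨f, f1, f2, f3⟩ := h n a b hn ha hb (Fin n) (fun i => i.val + 1) (fun i => n - 1 - i.val)
    (fun i j e => Fin.ext (by
      have := i.2
      have := j.2
      simp only at e
      omega)) (fun i => by have := i.2; omega) T hT A hA hA2 α hα0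
    (fun i => by simpa using hα i) π hπ hfix hp
  refine ⟨f, f1, fun i x y hxy => ?_, fun i j hij x y z t h1 h2 e => hij (f3 i j x y z t h1 h2 e)⟩
  have e1 := f2 i x
  have e2 := f2 i y
  have e3 := hA i x y hxy
  by_cases hy : y ∈ A i
  · have hx : x ∉ A i := fun hx => e3.1 hx hy
    rw [decide_eq_false hx] at e1
    rw [decide_eq_true hy] at e2
    exact Or.inr ⟨by simpa using e1, e2⟩
  · rw [decide_eq_true (e3.2 hy)] at e1
    rw [decide_eq_false hy] at e2
    exact Or.inl ⟨e1, by simpa using e2⟩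

end Pool.Agent.Results.MP_12a5fd_co.Paired
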